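import Mathlib

/-!
# Down-posets: the characterisation by down-functions and by closures
-/

set_option autoImplicit false

namespace Pool.Agent.X248.DP

/-- A semilattice with identity acting on a set. -/
structure SemilatticeAction (S C : Type) where
  /-- the operation of the semilattice -/
  mul : S → S → S
  /-- the identity -/
  one : S
  idem : ∀ s, mul s s = s
  comm : ∀ s t, mul s t = mul t s
  assoc : ∀ s t u, mul (mul s t) u = mul s (mul t u)
  one_mul : ∀ s, mul one s = s
  /-- the action -/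
  act : C → S → C
  act_mul : ∀ c s t, act c (mul s t) = act (act c s) t
  act_one : ∀ c, act c one = c

/-- The relation `le` makes `C` a down-poset: it is isomorphic to the order `c ≤ d` if and only if
`d s = c` for some `s`, for some action of a semilattice with identity on some set. -/
def IsDownPoset {C : Type} (le : C → C → Prop) : Prop :=
  ∃ (S D : Type) (A : SemilatticeAction S D) (e : C ≃ D),
    ∀ c d : C, le c d ↔ ∃ s : S, A.act (e d) s = e c

/-- Down-functions. -/
def IsDownFun {C : Type} (le : C → C → Prop) (f : C → C) : Prop :=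
  (∀ c, le (f c) c) ∧ (∀ c d, le c d → le (f c) (f d)) ∧ ∀ c d, le c (f d) → f c = c

section

variable {C : Type} {le : C → C → Prop}

theorem comp_eq (ha : ∀ a b, le a b → le b a → a = b) {f g : C → C}
    (hf : IsDownFun le f) (hg : IsDownFun le g) (x : C) : f (g x) = g (f x) := by
  have key : ∀ f g : C → C, IsDownFun le f → IsDownFun le g → ∀ x, le (f (g x)) (g (f x)) := by
    intro f g hf hg x
    have h1 : le (f (g x)) (g x) := hf.1 _
    have h2 : g (f (g x)) = f (g x) := hg.2.2 _ _ h1
    have h3 : le (f (g x)) (f x) := hf.2.1 _ _ (hg.1 x)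
    have h4 := hg.2.1 _ _ h3
    rwa [h2] at h4
  exact ha _ _ (key f g hf hg x) (key g f hg hf x)

theorem isDownFun_comp (ht : ∀ a b c, le a b → le b c → le a c)
    (ha : ∀ a b, le a b → le b a → a = b) {f g : C → C}
    (hf : IsDownFun le f) (hg : IsDownFun le g) : IsDownFun le (fun x => f (g x)) := by
  refine ⟨fun c => ht _ _ _ (hf.1 _) (hg.1 _), fun c d h => hf.2.1 _ _ (hg.2.1 _ _ h), ?_⟩
  intro c d h
  have h1 : f c = c := hf.2.2 _ _ h
  have h2 : g c = c := by
    simp only at h
    rw [comp_eq ha hf hg] at h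
    exact hg.2.2 _ _ h
  simp only
  rw [h2, h1]

/-- The known characterisation of down-posets. -/
theorem isDownPoset_iff (hr : ∀ a, le a a) (ht : ∀ a b c, le a b → le b c → le a c)
    (ha : ∀ a b, le a b → le b a → a = b) :
    IsDownPoset le ↔ ∀ c d, le c d → ∃ f, IsDownFun le f ∧ f d = c := by
  constructor
  · rintro ⟨S, D, A, e, h⟩ c d hcd
    obtain ⟨s, hs⟩ := (h c d).1 hcd
    have hf : ∀ x, e (e.symm (A.act (e x) s)) = A.act (e x) s := fun x => by simp
    refine ⟨fun x => e.symm (A.act (e x) s), ⟨?_, ?_, ?_⟩, ?_⟩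
    · intro x
      rw [h]
      exact ⟨s, by simp⟩
    · intro x y hxy
      obtain ⟨t, ht⟩ := (h x y).1 hxy
      rw [h]
      refine ⟨t, ?_⟩
      rw [hf, hf, ← A.act_mul, A.comm, A.act_mul, ht]
    · intro x y hxy
      obtain ⟨t, ht⟩ := (h _ _).1 hxy
      rw [hf] at ht
      simp only
      rw [Equiv.symm_apply_eq, ← ht, ← A.act_mul, ← A.act_mul, A.comm t s, ← A.assoc, A.idem,
        A.act_mul]
    · simp only
      rw [hs]
      simp
  · intro h
    let A : SemilatticeAction {f : C → C // IsDownFun le f} C :=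
      { mul := fun f g => ⟨fun x => f.1 (g.1 x), isDownFun_comp ht ha f.2 g.2⟩
        one := ⟨fun x => x, hr, fun _ _ h => h, fun _ _ _ => rfl⟩
        idem := fun f => Subtype.ext (funext fun x => f.2.2.2 _ _ (hr _))
        comm := fun f g => Subtype.ext (funext fun x => comp_eq ha f.2 g.2 x)
        assoc := fun _ _ _ => rfl
        one_mul := fun _ => rfl
        act := fun c f => f.1 c
        act_mul := fun c f g => comp_eq ha f.2 g.2 c
        act_one := fun _ => rfl }
    refine ⟨_, C, A, Equiv.refl C, fun c d => ?_⟩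
    constructor
    · intro hcd
      obtain ⟨f, hf, hfd⟩ := h c d hcd
      exact ⟨⟨f, hf⟩, hfd⟩
    · rintro ⟨f, hf⟩
      have : f.1 d = c := hf
      rw [← this]
      exact f.2.1 d

/-- Minimal upper bounds. -/
def IsMub (le : C → C → Prop) (a b m : C) : Prop :=
  le a m ∧ le b m ∧ ∀ u, le a u → le b u → le u m → u = m

/-- Good sets: closed downwards, containing the minimal elements, and closed under minimal upper
bounds of pairs. -/
def Good (le : C → C → Prop) (I : Set C) : Prop :=
  (∀ m, (∀ u, le u m → u = m) → m ∈ I) ∧ (∀ a ∈ I, ∀ m, le m a → m ∈ I) ∧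
    ∀ a ∈ I, ∀ b ∈ I, ∀ m, IsMub le a b m → m ∈ I

theorem exists_maximal_in [Finite C] (hr : ∀ a, le a a) (ht : ∀ a b c, le a b → le b c → le a c)
    (ha : ∀ a b, le a b → le b a → a = b) {J : Set C} (hne : J.Nonempty) :
    ∃ e ∈ J, ∀ x ∈ J, le e x → x = e := by
  letI : PartialOrder C :=
    { le := le, le_refl := hr, le_trans := ht, le_antisymm := ha }
  obtain ⟨m, hm⟩ := (Set.toFinite J).exists_maximal hne
  exact ⟨m, hm.1, fun x hx h => ha _ _ (hm.2 hx h) h⟩

theorem exists_minimal_in [Finite C] (hr : ∀ a, le a a) (ht : ∀ a b c, le a b → le b c → le a c)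
    (ha : ∀ a b, le a b → le b a → a = b) {J : Set C} (hne : J.Nonempty) :
    ∃ e ∈ J, ∀ x ∈ J, le x e → x = e := by
  letI : PartialOrder C :=
    { le := le, le_refl := hr, le_trans := ht, le_antisymm := ha }
  obtain ⟨m, hm⟩ := (Set.toFinite J).exists_minimal hne
  exact ⟨m, hm.1, fun x hx h => ha _ _ h (hm.2 hx h)⟩

/-- In a good set, the elements below a given element have a maximum. -/
theorem Good.exists_max [Finite C] (hr : ∀ a, le a a) (ht : ∀ a b c, le a b → le b c → le a c)
    (ha : ∀ a b, le a b → le b a → a = b) {I : Set C} (hI : Good le I) (x : C) :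
    ∃ e, e ∈ I ∧ le e x ∧ ∀ a ∈ I, le a x → le a e := by
  obtain ⟨m0, hm0, hm0'⟩ := exists_minimal_in hr ht ha (J := {u | le u x}) ⟨x, hr x⟩
  have hm0I : m0 ∈ I := hI.1 m0 (fun u hu => hm0' u (ht _ _ _ hu hm0) hu)
  obtain ⟨e, ⟨heI, hex⟩, hmax⟩ := exists_maximal_in hr ht ha (J := {u | u ∈ I ∧ le u x})
    ⟨m0, hm0I, hm0⟩
  refine ⟨e, heI, hex, fun a haI hax => ?_⟩
  obtain ⟨m, ⟨hm1, hm2, hm3⟩, hmin⟩ := exists_minimal_in hr ht ha
    (J := {u | le a u ∧ le e u ∧ le u x}) ⟨x, hax, hex, hr x⟩
  have hmub : IsMub le a e m := ⟨hm1, hm2, fun u h1 h2 h3 => hmin u ⟨h1, h2, ht _ _ _ h3 hm3⟩ h3⟩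
  have hmI : m ∈ I := hI.2.2 a haI e heI m hmub
  rw [← hmax m ⟨hmI, hm3⟩ hm2]
  exact hm1

/-- The set of fixed points of a down-function is good. -/
theorem good_of_fun (hr : ∀ a, le a a) {f : C → C} (hf : IsDownFun le f) :
    Good le {c | f c = c} := by
  refine ⟨fun m hm => hm _ (hf.1 m), fun a haI m hma => ?_, fun a haI b hbI m hm => ?_⟩
  · refine hf.2.2 m a ?_
    rw [Set.mem_setOf_eq] at haI
    rwa [haI]
  · rw [Set.mem_setOf_eq] at haI hbI
    refine hm.2.2 (f m) ?_ ?_ (hf.1 m)
    · have := hf.2.1 _ _ hm.1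
      rwa [haI] at this
    · have := hf.2.1 _ _ hm.2.1
      rwa [hbI] at this

/-- **The closure criterion.** A finite poset is a down-poset if and only if for all `c ≤ d`, every
element below `d` of the smallest good set containing `c` is below `c`. -/
theorem isDownPoset_iff_closure [Finite C] (hr : ∀ a, le a a)
    (ht : ∀ a b c, le a b → le b c → le a c) (ha : ∀ a b, le a b → le b a → a = b) :
    IsDownPoset le ↔ ∀ c d, le c d → ∀ x, (∀ I : Set C, Good le I → c ∈ I → x ∈ I) → le x d →
      le x c := by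
  rw [isDownPoset_iff hr ht ha]
  constructor
  · intro h c d hcd x hx hxd
    obtain ⟨f, hf, hfd⟩ := h c d hcd
    have hfc : f c = c := hf.2.2 c d (by rw [hfd]; exact hr c)
    have hfx : f x = x := hx {c | f c = c} (good_of_fun hr hf) hfc
    have := hf.2.1 _ _ hxd
    rwa [hfx, hfd] at this
  · intro h c d hcd
    -- the smallest good set containing `c`
    let I : Set C := {x | ∀ I : Set C, Good le I → c ∈ I → x ∈ I}
    have hI : Good le I := by
      refine ⟨fun m hm J hJ _ => hJ.1 m hm, fun a haI m hma J hJ hc => ?_,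
        fun a haI b hbI m hm J hJ hc => ?_⟩
      · exact hJ.2.1 a (haI J hJ hc) m hma
      · exact hJ.2.2 a (haI J hJ hc) b (hbI J hJ hc) m hm
    choose f hf1 hf2 hf3 using fun x => hI.exists_max hr ht ha x
    refine ⟨f, ⟨hf2, fun a b hab => hf3 b _ (hf1 a) (ht _ _ _ (hf2 a) hab), fun a b hab => ?_⟩, ?_⟩
    · have haI : a ∈ I := hI.2.1 _ (hf1 b) a hab
      exact ha _ _ (hf2 a) (hf3 a a haI (hr a))
    · have hcI : c ∈ I := fun J _ hc => hc
      exact ha _ _ (h c d hcd (f d) (hf1 d) (hf2 d)) (hf3 d c hcI hcd)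

end

end Pool.Agent.X248.DP
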