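import Pool.Agent.X248.Closure
import Pool.Agent.X248.DP.Char
import Pool.Agent.H622R2.Base

/-!
# Down-posets: the algorithm
-/

set_option autoImplicit false

namespace Pool.Agent.X248.DP

open Pool.Agent.NPC Pool.Agent.H622R2

/-- The relation given by a Boolean matrix: `i ≤ j` when the entry `(i, j)` is `true`. -/
def rel (M : List (List Bool)) (i j : Fin M.length) : Prop := entry M i j = true

/-- The relation of the matrix is a partial order. -/
def IsPO (M : List (List Bool)) : Prop :=
  (∀ i, rel M i i) ∧ (∀ i j k, rel M i j → rel M j k → rel M i k) ∧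
    ∀ i j, rel M i j → rel M j i → i = j

/-- The rules. -/
def ruleF (M : List (List Bool)) (c : ℕ) (L : List ℕ) (m : ℕ) : Bool :=
  decide (m = c) ||
  ((List.range M.length).all fun u => !(entry M u m) || decide (u = m)) ||
  (L.any fun a => entry M m a) ||
  (L.any fun a => L.any fun b => entry M a m && entry M b m &&
    (List.range M.length).all fun u => !(entry M a u && entry M b u && entry M u m) ||
      decide (u = m))

/-- The algorithm. -/
def decB (M : List (List Bool)) : Bool :=
  ((List.range M.length).all fun i => entry M i i) &&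
  ((List.range M.length).all fun i => (List.range M.length).all fun j =>
    (List.range M.length).all fun k => !(entry M i j && entry M j k) || entry M i k) &&
  ((List.range M.length).all fun i => (List.range M.length).all fun j =>
    !(entry M i j && entry M j i) || decide (i = j)) &&
  ((List.range M.length).all fun c => (List.range M.length).all fun d =>
    !(entry M c d) || ((cloL (ruleF M c) M.length).all fun x => !(entry M x d) || entry M x c))

theorem ruleF_mono (M : List (List Bool)) (c : ℕ) (L L' : List ℕ) (m : ℕ)
    (h : ∀ x ∈ L, x ∈ L') (hF : ruleF M c L m = true) : ruleF M c L' m = true := by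
  unfold ruleF at hF ⊢
  simp only [Bool.or_eq_true, List.any_eq_true, decide_eq_true_eq] at hF ⊢
  rcases hF with ((h1 | h1) | ⟨a, ha, h1⟩) | ⟨a, ha, b, hb, h1⟩
  · exact Or.inl (Or.inl (Or.inl h1))
  · exact Or.inl (Or.inl (Or.inr h1))
  · exact Or.inl (Or.inr ⟨a, h a ha, h1⟩)
  · exact Or.inr ⟨a, h a ha, b, h b hb, h1⟩

theorem clo_iff (M : List (List Bool)) (c m : Fin M.length) :
    m.1 ∈ cloL (ruleF M c.1) M.length ↔ ∀ I : Set (Fin M.length), Good (rel M) I → c ∈ I →
      m ∈ I := by
  constructor
  · intro hm I hI hc
    rw [mem_cloL (ruleF_mono M c.1)] at hm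
    obtain ⟨_, h⟩ := hm {x | ∃ h : x < M.length, (⟨x, h⟩ : Fin M.length) ∈ I} (by
      intro L hL m hm hF
      refine ⟨hm, ?_⟩
      unfold ruleF at hF
      simp only [Bool.or_eq_true, List.any_eq_true, decide_eq_true_eq, List.all_eq_true,
        List.mem_range, Bool.and_eq_true, Bool.not_eq_true'] at hF
      rcases hF with ((h1 | h1) | ⟨a, ha, h1⟩) | ⟨a, ha, b, hb, h1⟩
      · have : (⟨m, hm⟩ : Fin M.length) = c := Fin.ext h1
        rw [this]
        exact hc
      · refine hI.1 _ fun u hu => ?_
        rcases h1 u u.2 with h2 | h2
        · unfold rel at hu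
          simp only at hu
          rw [h2] at hu
          exact absurd hu (by simp)
        · exact Fin.ext h2
      · obtain ⟨ha', haI⟩ := hL a ha
        exact hI.2.1 _ haI _ h1
      · obtain ⟨ha', haI⟩ := hL a ha
        obtain ⟨hb', hbI⟩ := hL b hb
        refine hI.2.2 _ haI _ hbI _ ⟨h1.1.1, h1.1.2, fun u hu1 hu2 hu3 => ?_⟩
        rcases h1.2 u u.2 with h2 | h2
        · unfold rel at hu1 hu2 hu3
          simp only at hu1 hu2 hu3
          rw [hu1, hu2, hu3] at h2
          exact absurd h2 (by simp)
        · exact Fin.ext h2)
    exact h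
  · intro h
    have hcl := fun (L : List ℕ) (hL : ∀ x ∈ L, x ∈ cloL (ruleF M c.1) M.length) (m : ℕ)
      (hm : m < M.length) (h : ruleF M c.1 L m = true) =>
        cloL_closed (ruleF_mono M c.1) hL hm h
    refine h {x | x.1 ∈ cloL (ruleF M c.1) M.length} ⟨?_, ?_, ?_⟩ ?_
    · intro m hm
      refine hcl [] (by simp) m m.2 ?_
      unfold ruleF
      simp only [Bool.or_eq_true, decide_eq_true_eq, List.all_eq_true,
        List.mem_range, Bool.not_eq_true']
      left; left; right
      intro u hu
      by_cases h1 : entry M u m = true
      · right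
        exact congrArg Fin.val (hm ⟨u, hu⟩ h1)
      · exact Or.inl (by simpa using h1)
    · intro a haI m hma
      refine hcl [a.1] (by simpa using haI) m m.2 ?_
      unfold ruleF
      simp only [Bool.or_eq_true, List.any_eq_true, List.mem_singleton]
      left; right
      exact ⟨a.1, rfl, hma⟩
    · intro a haI b hbI m hm
      refine hcl [a.1, b.1] ?_ m m.2 ?_
      · intro x hx
        simp only [List.mem_cons, List.not_mem_nil, or_false] at hx
        rcases hx with rfl | rfl
        · exact haI
        · exact hbI
      · unfold ruleF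
        simp only [Bool.or_eq_true, List.any_eq_true, decide_eq_true_eq, List.all_eq_true,
          List.mem_range, Bool.and_eq_true, Bool.not_eq_true', List.mem_cons, List.not_mem_nil,
          or_false]
        right
        refine ⟨a.1, Or.inl rfl, b.1, Or.inr rfl, ⟨hm.1, hm.2.1⟩, fun u hu => ?_⟩
        by_cases h1 : (entry M a u && entry M b u && entry M u m) = true
        · right
          simp only [Bool.and_eq_true] at h1
          exact congrArg Fin.val (hm.2.2 ⟨u, hu⟩ h1.1.1 h1.1.2 h1.2)
        · exact Or.inl (by simpa using h1)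
    · show c.1 ∈ cloL (ruleF M c.1) M.length
      refine hcl [] (by simp) c.1 c.2 ?_
      unfold ruleF
      simp

/-- **Correctness of the algorithm.** -/
theorem decB_iff (M : List (List Bool)) :
    (IsPO M ∧ IsDownPoset (rel M)) ↔ decB M = true := by
  unfold decB
  rw [Bool.and_eq_true]
  have hpo : (((List.range M.length).all fun i => entry M i i) &&
      ((List.range M.length).all fun i => (List.range M.length).all fun j =>
        (List.range M.length).all fun k => !(entry M i j && entry M j k) || entry M i k) &&
      ((List.range M.length).all fun i => (List.range M.length).all fun j =>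
        !(entry M i j && entry M j i) || decide (i = j))) = true ↔ IsPO M := by
    simp only [Bool.and_eq_true, List.all_eq_true, List.mem_range, Bool.or_eq_true,
      Bool.not_eq_true', decide_eq_true_eq, Bool.and_eq_false_iff]
    unfold IsPO rel
    constructor
    · rintro ⟨⟨h1, h2⟩, h3⟩
      refine ⟨fun i => h1 i i.2, fun i j k hij hjk => ?_, fun i j hij hji => ?_⟩
      · rcases h2 i i.2 j j.2 k k.2 with (h | h) | h
        · rw [hij] at h; exact absurd h (by simp)
        · rw [hjk] at h; exact absurd h (by simp)
        · exact h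
      · rcases h3 i i.2 j j.2 with (h | h) | h
        · rw [hij] at h; exact absurd h (by simp)
        · rw [hji] at h; exact absurd h (by simp)
        · exact Fin.ext h
    · rintro ⟨h1, h2, h3⟩
      refine ⟨⟨fun i hi => h1 ⟨i, hi⟩, fun i hi j hj k hk => ?_⟩, fun i hi j hj => ?_⟩
      · by_cases h4 : entry M i j = true
        · by_cases h5 : entry M j k = true
          · exact Or.inr (h2 ⟨i, hi⟩ ⟨j, hj⟩ ⟨k, hk⟩ h4 h5)
          · exact Or.inl (Or.inr (by simpa using h5))
        · exact Or.inl (Or.inl (by simpa using h4))
      · by_cases h4 : entry M i j = true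
        · by_cases h5 : entry M j i = true
          · exact Or.inr (congrArg Fin.val (h3 ⟨i, hi⟩ ⟨j, hj⟩ h4 h5))
          · exact Or.inl (Or.inr (by simpa using h5))
        · exact Or.inl (Or.inl (by simpa using h4))
  rw [hpo]
  refine and_congr_right fun hM => ?_
  rw [isDownPoset_iff_closure hM.1 hM.2.1 hM.2.2]
  simp only [List.all_eq_true, List.mem_range, Bool.or_eq_true, Bool.not_eq_true']
  constructor
  · intro h c hc d hd
    by_cases hcd : entry M c d = true
    · right
      intro x hx
      have hxn := cloL_lt hx
      by_cases hxd : entry M x d = true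
      · right
        exact h ⟨c, hc⟩ ⟨d, hd⟩ hcd ⟨x, hxn⟩ ((clo_iff M ⟨c, hc⟩ ⟨x, hxn⟩).1 hx) hxd
      · exact Or.inl (by simpa using hxd)
    · exact Or.inl (by simpa using hcd)
  · intro h c d hcd x hx hxd
    rcases h c c.2 d d.2 with h1 | h1
    · unfold rel at hcd
      rw [hcd] at h1
      exact absurd h1 (by simp)
    · rcases h1 x ((clo_iff M c x).2 hx) with h2 | h2
      · unfold rel at hxd
        rw [hxd] at h2
        exact absurd h2 (by simp)
      · exact h2

section PolyTime

variable {α : Type} [TEnc α]

theorem poly_entry {M : α → List (List Bool)} {i j : α → ℕ} (hM : Poly M) (hi : Poly i)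
    (hj : Poly j) : Poly (fun a => entry (M a) (i a) (j a)) := by
  unfold entry
  fun_prop

attribute [local fun_prop] poly_entry

theorem poly_ruleF : Poly (fun p : ((List (List Bool) × ℕ) × List ℕ) × ℕ =>
    ruleF p.1.1.1 p.1.1.2 p.1.2 p.2) := by
  unfold ruleF
  have h1 : Poly (fun p : ((List (List Bool) × ℕ) × List ℕ) × ℕ =>
      (List.range p.1.1.1.length).all fun u => !(entry p.1.1.1 u p.2) || decide (u = p.2)) :=
    Poly.all (p := fun (p : ((List (List Bool) × ℕ) × List ℕ) × ℕ) u =>
      !(entry p.1.1.1 u p.2) || decide (u = p.2)) (Poly.range_length (by fun_prop))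
      (by fun_prop)
  have h2 : Poly (fun p : ((List (List Bool) × ℕ) × List ℕ) × ℕ =>
      p.1.2.any fun a => p.1.2.any fun b => entry p.1.1.1 a p.2 && entry p.1.1.1 b p.2 &&
        (List.range p.1.1.1.length).all fun u => !(entry p.1.1.1 a u && entry p.1.1.1 b u &&
          entry p.1.1.1 u p.2) || decide (u = p.2)) := by
    refine Poly.any (p := fun (p : ((List (List Bool) × ℕ) × List ℕ) × ℕ) a =>
      p.1.2.any fun b => entry p.1.1.1 a p.2 && entry p.1.1.1 b p.2 &&
        (List.range p.1.1.1.length).all fun u => !(entry p.1.1.1 a u && entry p.1.1.1 b u &&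
          entry p.1.1.1 u p.2) || decide (u = p.2)) (by fun_prop) ?_
    refine Poly.any (p := fun (p : (((List (List Bool) × ℕ) × List ℕ) × ℕ) × ℕ) b =>
      entry p.1.1.1.1 p.2 p.1.2 && entry p.1.1.1.1 b p.1.2 &&
        (List.range p.1.1.1.1.length).all fun u => !(entry p.1.1.1.1 p.2 u &&
          entry p.1.1.1.1 b u && entry p.1.1.1.1 u p.1.2) || decide (u = p.1.2)) (by fun_prop) ?_
    refine Poly.and (by fun_prop) ?_
    exact Poly.all (p := fun (p : ((((List (List Bool) × ℕ) × List ℕ) × ℕ) × ℕ) × ℕ) u =>
      !(entry p.1.1.1.1.1 p.1.2 u && entry p.1.1.1.1.1 p.2 u && entry p.1.1.1.1.1 u p.1.1.2) ||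
        decide (u = p.1.1.2)) (Poly.range_length (by fun_prop)) (by fun_prop)
  fun_prop

theorem poly_clo : Poly (fun p : List (List Bool) × ℕ => cloL (ruleF p.1 p.2) p.1.length) :=
  poly_cloL (F := fun p : List (List Bool) × ℕ => ruleF p.1 p.2)
    (UPoly.length (by fun_prop)) poly_ruleF

theorem poly_decB : Poly decB := by
  unfold decB
  have hr : Poly (fun M : List (List Bool) => List.range M.length) :=
    Poly.range_length Poly.id
  have hr1 : Poly (fun p : List (List Bool) × ℕ => List.range p.1.length) :=
    Poly.range_length (by fun_prop)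
  have hr2 : Poly (fun p : (List (List Bool) × ℕ) × ℕ => List.range p.1.1.length) :=
    Poly.range_length (by fun_prop)
  have h4 : Poly (fun M : List (List Bool) => (List.range M.length).all fun c =>
      (List.range M.length).all fun d => !(entry M c d) ||
        ((cloL (ruleF M c) M.length).all fun x => !(entry M x d) || entry M x c)) := by
    refine Poly.all (p := fun (M : List (List Bool)) c => (List.range M.length).all fun d =>
      !(entry M c d) || ((cloL (ruleF M c) M.length).all fun x => !(entry M x d) || entry M x c))
      hr ?_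
    refine Poly.all (p := fun (p : List (List Bool) × ℕ) d =>
      !(entry p.1 p.2 d) || ((cloL (ruleF p.1 p.2) p.1.length).all fun x =>
        !(entry p.1 x d) || entry p.1 x p.2)) hr1 ?_
    refine Poly.or (by fun_prop) ?_
    exact Poly.all (p := fun (p : (List (List Bool) × ℕ) × ℕ) x =>
      !(entry p.1.1 x p.2) || entry p.1.1 x p.1.2)
      (poly_clo.comp (f := fun p : (List (List Bool) × ℕ) × ℕ => p.1) (by fun_prop))
      (by fun_prop)
  have h2 : Poly (fun M : List (List Bool) => (List.range M.length).all fun i =>
      (List.range M.length).all fun j => (List.range M.length).all fun k =>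
        !(entry M i j && entry M j k) || entry M i k) := by
    refine Poly.all (p := fun (M : List (List Bool)) i => (List.range M.length).all fun j =>
      (List.range M.length).all fun k => !(entry M i j && entry M j k) || entry M i k) hr ?_
    refine Poly.all (p := fun (p : List (List Bool) × ℕ) j => (List.range p.1.length).all fun k =>
      !(entry p.1 p.2 j && entry p.1 j k) || entry p.1 p.2 k) hr1 ?_
    exact Poly.all (p := fun (p : (List (List Bool) × ℕ) × ℕ) k =>
      !(entry p.1.1 p.1.2 p.2 && entry p.1.1 p.2 k) || entry p.1.1 p.1.2 k) hr2 (by fun_prop)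
  have h3 : Poly (fun M : List (List Bool) => (List.range M.length).all fun i =>
      (List.range M.length).all fun j => !(entry M i j && entry M j i) || decide (i = j)) := by
    refine Poly.all (p := fun (M : List (List Bool)) i => (List.range M.length).all fun j =>
      !(entry M i j && entry M j i) || decide (i = j)) hr ?_
    exact Poly.all (p := fun (p : List (List Bool) × ℕ) j =>
      !(entry p.1 p.2 j && entry p.1 j p.2) || decide (p.2 = j)) hr1 (by fun_prop)
  fun_prop

end PolyTime

end Pool.Agent.X248.DP
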